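import Pool.Agent.H.MP_50b7e0_al.Main

set_option autoImplicit false

namespace Pool.Agent.Results.MP_50b7e0_al.PowersOfFive

/-- The magma `G` satisfies law 677: `x = y ◇ (x ◇ ((y ◇ x) ◇ y))` for all `x`, `y`. -/
def E677 {G : Type} (op : G → G → G) : Prop :=
  ∀ x y : G, x = op y (op x (op (op y x) y))

/-- Law 255 holds at the element `x`: `x = ((x ◇ x) ◇ x) ◇ x`. -/
def E255At {G : Type} (op : G → G → G) (x : G) : Prop :=
  x = op (op (op x x) x) x

open Pool.Agent.H.MP50b7e0

/-- Embedding of a finite partial linear space, with lines labelled in `ZMod 5`, in an affine line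
structure on the functions from its points to `ZMod 5`. -/
theorem embed' {V I : Type} [Finite V] (Inc : I → ZMod 5 → V → Prop)
    (h1 : ∀ i s v w, Inc i s v → Inc i s w → v = w)
    (h2 : ∀ i s t v, Inc i s v → Inc i t v → s = t)
    (h3 : ∀ i j s t s' t' u v, u ≠ v → Inc i s u → Inc i t v → Inc j s' u → Inc j t' v → i = j)
    (h4 : ∀ i, ∃ u v, Inc i 0 u ∧ Inc i 1 v) :
    ∃ (e : V → (V → ZMod 5)) (G : Geo (V → ZMod 5)), Function.Injective e ∧
      ∀ i s t r u v w, Inc i s u → Inc i t v → Inc i (s + (t - s) * r) w →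
        G.ln (e u) (e v) r = e w := by
  classical
  have : Fintype V := Fintype.ofFinite V
  let M : Type := V → ZMod 5
  let G0 : Geo M := stdGeo V
  let e : V → M := fun v => Pi.single v 1
  have he : Function.Injective e := by
    intro a b h
    by_contra hab
    have h' := congrFun h a
    simp only [e, Pi.single_eq_same] at h'
    rw [Pi.single_eq_of_ne hab] at h'
    exact one_ne_zero h'
  let F : I → Set M := fun i => {p | (∀ v, (∀ s, ¬ Inc i s v) → p v = 0) ∧ ∑ v, p v = 1}
  have heF : ∀ i s v, Inc i s v → e v ∈ F i := by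
    intro i s v hv
    refine ⟨?_, ?_⟩
    · intro w hw
      have : w ≠ v := by
        rintro rfl
        exact hw s hv
      simp only [e]
      rw [Pi.single_eq_of_ne this]
    · simp only [e]
      rw [Finset.sum_pi_single']
      simp
  have hF : ∀ i p q t, p ∈ F i → q ∈ F i → G0.ln p q t ∈ F i := by
    intro i p q t hp hq
    refine ⟨?_, ?_⟩
    · intro v hv
      change p v + t * (q v - p v) = 0
      rw [hp.1 v hv, hq.1 v hv]
      ring
    · change ∑ v, (p v + t * (q v - p v)) = 1
      rw [Finset.sum_add_distrib, ← Finset.mul_sum, Finset.sum_sub_distrib, hp.2, hq.2]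
      ring
  have hFF : ∀ i j p q, p ≠ q → p ∈ F i → q ∈ F i → p ∈ F j → q ∈ F j → i = j := by
    intro i j p q hpq hpi hqi hpj hqj
    by_contra hij
    apply hpq
    funext v
    by_cases hv : (∃ s, Inc i s v) ∧ (∃ s, Inc j s v)
    · have hz : ∀ r : M, r ∈ F i → r ∈ F j → r v = 1 := by
        intro r hri hrj
        have hs := hri.2
        rw [Finset.sum_eq_single v] at hs
        · exact hs
        · intro w _ hwv
          by_contra hne
          have hw1 : ∃ s, Inc i s w := by
            by_contra hcon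
            push Not at hcon
            exact hne (hri.1 w hcon)
          have hw2 : ∃ s, Inc j s w := by
            by_contra hcon
            push Not at hcon
            exact hne (hrj.1 w hcon)
          obtain ⟨s, hs1⟩ := hw1
          obtain ⟨s', hs2⟩ := hw2
          obtain ⟨⟨t, ht1⟩, ⟨t', ht2⟩⟩ := hv
          exact hij (h3 i j s t s' t' w v hwv hs1 ht1 hs2 ht2)
        · intro hcon
          exact absurd (Finset.mem_univ v) hcon
      rw [hz p hpi hpj, hz q hqi hqj]
    · rw [not_and_or] at hv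
      rcases hv with hv | hv
      · push Not at hv
        rw [hpi.1 v hv, hqi.1 v hv]
      · push Not at hv
        rw [hpj.1 v hv, hqj.1 v hv]
  have hσex : ∀ i, ∃ σ : Equiv.Perm M, (∀ p, p ∈ F i ↔ σ p ∈ F i) ∧
      ∃ u0 u1 : V, ∀ s v, Inc i s v → σ (e v) = G0.ln (e u0) (e u1) s := by
    intro i
    obtain ⟨u0, u1, hu0, hu1⟩ := h4 i
    have hne : u0 ≠ u1 := by
      rintro rfl
      exact zero_ne_one (h2 i 0 1 u0 hu0 hu1)
    have hene : e u0 ≠ e u1 := fun h => hne (he h)
    let S : Type := {v : V // ∃ s, Inc i s v}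
    let lab : S → ZMod 5 := fun v => v.2.choose
    have hlab : ∀ v : S, Inc i (lab v) v.1 := fun v => v.2.choose_spec
    obtain ⟨σ, hσ1, hσ2⟩ := exists_perm (F i) (fun v : S => e v.1)
      (fun v : S => G0.ln (e u0) (e u1) (lab v))
      (by
        intro a b h
        exact Subtype.ext (he h))
      (by
        intro a b h
        have hl : lab a = lab b := G0.inj' hene h
        apply Subtype.ext
        have ha := hlab a
        rw [hl] at ha
        exact h1 i _ _ _ ha (hlab b))
      (fun v => heF i _ _ (hlab v))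
      (fun v => hF i _ _ _ (heF i _ _ hu0) (heF i _ _ hu1))
    refine ⟨σ, hσ1, u0, u1, ?_⟩
    intro s v hv
    have h := hσ2 ⟨v, s, hv⟩
    have hs : lab ⟨v, s, hv⟩ = s := h2 i _ _ v (hlab ⟨v, s, hv⟩) hv
    simp only at h
    rw [h, hs]
  choose σ hσ1 hσ2 using hσex
  obtain ⟨G', hG'⟩ := switch G0 F hF hFF σ hσ1
  refine ⟨e, G', he, ?_⟩
  intro i s t r u v w hu hv hw
  obtain ⟨u0, u1, h⟩ := hσ2 i
  rw [hG' i _ _ r (heF i _ _ hu) (heF i _ _ hv), h s u hu, h t v hv, G0.lnln, ← h _ w hw]
  simp

theorem magma_of_arrows' {V I : Type} [Finite V] (Inc : I → ZMod 5 → V → Prop) (C : I → Prop)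
    (Arr : V → V → V → Prop)
    (h1 : ∀ i s v w, Inc i s v → Inc i s w → v = w)
    (h2 : ∀ i s t v, Inc i s v → Inc i t v → s = t)
    (h3 : ∀ i j s t s' t' u v, u ≠ v → Inc i s u → Inc i t v → Inc j s' u → Inc j t' v → i = j)
    (h4 : ∀ i, ∃ u v, Inc i 0 u ∧ Inc i 1 v)
    (a1 : ∀ u v c d, Arr u v c → Arr u v d → c = d)
    (a2 : ∀ u v c, Arr u v c → u ≠ v → ∃ i s t, C i ∧ Inc i s u ∧ Inc i t v)
    (a3 : ∀ i s t u v, C i → Inc i s u → Inc i t v → u ≠ v → ∃ c, Arr u v c)
    (a3' : ∀ i s, C i → ∃ v, Inc i s v)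
    (a4 : ∀ u v c, Arr u v c → ∃ a b, Arr u a v ∧ Arr c u b ∧
      (Arr v b a ∨ ∃ i s t, ¬ C i ∧ v ≠ b ∧ Inc i s v ∧ Inc i t b ∧ Inc i (s + (t - s) * (-1)) a))
    (x0 P Q z : V) (b1 : Arr x0 x0 P) (b2 : Arr P x0 Q) (b3 : Arr Q x0 z) (b4 : z ≠ x0) :
    ∃ op : (V → ZMod 5) → (V → ZMod 5) → (V → ZMod 5), E677 op ∧ ∃ x, ¬ E255At op x := by
  classical
  obtain ⟨e, G, he, hG⟩ := embed' Inc h1 h2 h3 h4
  let op : (V → ZMod 5) → (V → ZMod 5) → (V → ZMod 5) := fun p q =>
    if h : ∃ w u v, p = e u ∧ q = e v ∧ Arr u v w then e h.choose else G.ln p q (-1)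
  have opY : ∀ u v w, Arr u v w → op (e u) (e v) = e w := by
    intro u v w huvw
    have h : ∃ w u' v', e u = e u' ∧ e v = e v' ∧ Arr u' v' w := ⟨w, u, v, rfl, rfl, huvw⟩
    simp only [op]
    rw [dif_pos h]
    obtain ⟨u', v', hu, hv, hc⟩ := h.choose_spec
    have hu' := he hu
    have hv' := he hv
    subst hu' hv'
    rw [a1 _ _ _ _ hc huvw]
  have opX : ∀ p q, (¬ ∃ w u v, p = e u ∧ q = e v ∧ Arr u v w) → op p q = G.ln p q (-1) := by
    intro p q h
    simp only [op]
    rw [dif_neg h]
  have claw : ∀ x y : V → ZMod 5, x = op y (op x (op (op y x) y)) := by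
    intro x y
    by_cases hY : ∃ w u v, y = e u ∧ x = e v ∧ Arr u v w
    · obtain ⟨c, u, v, rfl, rfl, huv⟩ := hY
      obtain ⟨a, b, ha, hb, hor⟩ := a4 u v c huv
      rw [opY u v c huv, opY c u b hb]
      have hvb : op (e v) (e b) = e a := by
        rcases hor with h | ⟨i, s, t, hC, hne, hv, hb', ha'⟩
        · exact opY v b a h
        · rw [opX]
          · exact hG i s t (-1) v b a hv hb' ha'
          · rintro ⟨w, v', b', hv1, hb1, hw⟩
            have hv2 := he hv1
            have hb2 := he hb1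
            subst hv2 hb2
            obtain ⟨i', s', t', hC', hv3, hb3⟩ := a2 v b w hw hne
            have := h3 i i' s t s' t' v b hne hv hb' hv3 hb3
            subst this
            exact hC hC'
      rw [hvb, opY u a v ha]
    · by_cases hyx : y = x
      · subst hyx
        have hyy : op y y = y := by
          rw [opX y y hY, G.self]
        rw [hyy, hyy, hyy, hyy]
      · -- no pair of distinct points on the line through `y` and `x` is an arrow pair
        have key : ∀ s t : ZMod 5, s ≠ t →
            ¬ ∃ w u v, G.ln y x s = e u ∧ G.ln y x t = e v ∧ Arr u v w := by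
          rintro s t hst ⟨w, u, v, hu, hv, hw⟩
          have huv : u ≠ v := by
            rintro rfl
            exact hyx (G.inj (hu.trans hv.symm) hst)
          obtain ⟨i, a, b, hC, hiu, hiv⟩ := a2 u v w hw huv
          have hts : t - s ≠ 0 := sub_ne_zero.mpr (Ne.symm hst)
          have hpt : ∀ r : ZMod 5, ∃ z, G.ln y x r = e z ∧
              Inc i (a + (b - a) * ((r - s) / (t - s))) z := by
            intro r
            obtain ⟨z, hz⟩ := a3' i (a + (b - a) * ((r - s) / (t - s))) hC
            refine ⟨z, ?_, hz⟩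
            have h5 := hG i a b ((r - s) / (t - s)) u v z hiu hiv hz
            rw [← hu, ← hv, G.lnln] at h5
            have h6 : s + (t - s) * ((r - s) / (t - s)) = r := by
              field_simp
              ring
            rw [h6] at h5
            exact h5
          obtain ⟨z0, hz0, hi0⟩ := hpt 0
          obtain ⟨z1, hz1, hi1⟩ := hpt 1
          rw [G.ln0] at hz0
          rw [G.ln1] at hz1
          have hz01 : z0 ≠ z1 := by
            rintro rfl
            exact hyx (hz0.trans hz1.symm)
          obtain ⟨c, hc⟩ := a3 i _ _ z0 z1 hC hi0 hi1 hz01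
          exact hY ⟨c, z0, z1, hz0, hz1, hc⟩
        have e1 : op y x = G.ln y x (-1) := opX y x hY
        have e2 : op (op y x) y = G.ln y x (-2) := by
          rw [e1]
          have h := opX (G.ln y x (-1)) y (by
            have hk := key (-1) 0 (by decide)
            rw [G.ln0] at hk
            exact hk)
          rw [h]
          have h7 := G.lnln y x (-1) 0 (-1)
          rw [G.ln0] at h7
          rw [h7]
          congr 1
        have e3 : op x (G.ln y x (-2)) = G.ln y x (-1) := by
          have h := opX x (G.ln y x (-2)) (by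
            have hk := key 1 (-2) (by decide)
            rw [G.ln1] at hk
            exact hk)
          rw [h]
          have h7 := G.lnln y x 1 (-2) (-1)
          rw [G.ln1] at h7
          rw [h7]
          congr 1
        have e4 : op y (G.ln y x (-1)) = x := by
          have h := opX y (G.ln y x (-1)) (by
            have hk := key 0 (-1) (by decide)
            rw [G.ln0] at hk
            exact hk)
          rw [h]
          have h7 := G.lnln y x 0 (-1) (-1)
          rw [G.ln0] at h7
          rw [h7]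
          have h8 : (0 : ZMod 5) + (-1 - 0) * (-1) = 1 := by decide
          rw [h8, G.ln1]
        rw [e2, e3, e4]
  refine ⟨op, claw, e x0, fun hfinal => ?_⟩
  unfold E255At at hfinal
  rw [opY x0 x0 P b1, opY P x0 Q b2, opY Q x0 z b3] at hfinal
  exact b4 (he hfinal).symm


theorem base : ∃ op : (V → ZMod 5) → (V → ZMod 5) → (V → ZMod 5),
    E677 op ∧ ∃ x, ¬ E255At op x := by
  refine magma_of_arrows' Inc Cq Arr h1 h2 h3 h4 a1 a2 a3 a3' a4
    ((0 : Fin 19), 0) ((1 : Fin 19), 0) ((2 : Fin 19), 0) ((17 : Fin 19), ((68 : ℕ) : ZMod 101))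
    ⟨0, by norm_num, ?_, ?_, ?_, ?_, ?_⟩ ⟨13, by norm_num, ?_, ?_, ?_, ?_, ?_⟩
    ⟨25, by norm_num, ?_, ?_, ?_, ?_, ?_⟩ ?_
  all_goals decide +kernel

/-- For every `n ≥ 1919` there is a magma with exactly `5 ^ n` elements that satisfies law 677 and
in which law 255 fails at some element. -/
theorem result (n : ℕ) (hn : 1919 ≤ n) :
    ∃ (G : Type) (_ : Finite G) (op : G → G → G),
      Nat.card G = 5 ^ n ∧ E677 op ∧ ∃ x : G, ¬ E255At op x := by
  obtain ⟨op, h677, x, hx⟩ := base
  obtain ⟨k, rfl⟩ := Nat.exists_eq_add_of_le hn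
  refine ⟨(V → ZMod 5) × (Fin k → ZMod 5), inferInstance,
    fun p q => (op p.1 q.1, fun i => 2 * p.2 i - q.2 i), ?_, ?_, (x, 0), ?_⟩
  · rw [Nat.card_eq_fintype_card, Fintype.card_prod, Fintype.card_fun, Fintype.card_fun,
      Fintype.card_prod, ZMod.card, ZMod.card, Fintype.card_fin, Fintype.card_fin, pow_add]
  · intro p q
    refine Prod.ext (h677 p.1 q.1) ?_
    funext i
    change p.2 i = 2 * q.2 i - (2 * p.2 i - (2 * (2 * q.2 i - p.2 i) - q.2 i))
    have h5 : (5 : ZMod 5) = 0 := by decide
    linear_combination (p.2 i - q.2 i) * h5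
  · intro h
    exact hx (congrArg Prod.fst h)

end Pool.Agent.Results.MP_50b7e0_al.PowersOfFive
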